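import Pool.Agent.R151.SHD

/-!
# SHD is not dense hereditary
-/

open Pool.Agent.R151.SHD

namespace Pool.Agent.Results.MP_f0fa00_gt.NotDenseHereditary

/-- There are a compact Hausdorff SHD space `X` and a dense subset of `X` which is not SHD. -/
theorem result : ∃ (X : Type) (_ : TopologicalSpace X) (D : Set X),
    CompactSpace X ∧ T2Space X ∧ SHD X ∧ Dense D ∧ ¬ SHD D :=
  ⟨K, inferInstance, D, inferInstance, inferInstance, SHD_K, dense_D, not_SHD_D⟩

end Pool.Agent.Results.MP_f0fa00_gt.NotDenseHereditary
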